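import Pool.Agent.MP_d42cd1_nt.H97.NB

open Pool.Agent.MP_d42cd1_nt.H97

theorem Pool.Agent.Results.MP_d42cd1_nt.NotDivisible.result (p : ℕ) (hp : p.Prime) (h2 : p ≠ 2) :
    ∃ c : ℝ, 0 < c ∧ ∃ N₀ : ℕ, ∀ N ≥ N₀,
      c * N ≤ (((Finset.Icc 1 N).filter (fun n => ¬ p ∣ binPart (2 * n))).card : ℝ) := by
  convert not_div p hp h2
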