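import Pool.Agent.MP_d42cd1_nt.H97.NB

open Pool.Agent.MP_d42cd1_nt.H97

open Classical in
theorem Pool.Agent.Results.MP_d42cd1_nt.UpperDensity.result :
    ∃ c : ℝ, 0 < c ∧ ∃ N₀ : ℕ, ∀ N ≥ N₀,
      (((Finset.Icc 1 N).filter
          (fun n => ∃ x y : ℤ, (binPart (2 * n) : ℤ) = x ^ 2 + y ^ 2)).card : ℝ)
        ≤ (1 / 2 - c) * N :=
  upper
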